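import Pool.Agent.Helper44.GN.Defs

/-!
# MP_d210aa_gt: module DQF (logarithmic derivative of the Gram determinant)
-/

open Finset MeasureTheory Filter Topology Matrix
open scoped ENNReal ContDiff

namespace Pool.Agent.Helper44.GN

open Pool.Agent.Helper44.GF

theorem dqf_TT {n m : ℕ} (V : Matrix (Fin n) (Fin m) ℝ) (y : Fin n → ℝ) (i j : Fin m) :
    TT V V y i j = ∑ k, V k i * y k * V k j := by
  unfold TT
  rw [Matrix.mul_apply]
  refine Finset.sum_congr rfl fun k _ => ?_
  rw [Matrix.mul_diagonal, Matrix.transpose_apply]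

theorem dqf_upd {n m : ℕ} (V : Matrix (Fin n) (Fin m) ℝ) (y : Fin n → ℝ) (x : Fin n) (s : ℝ) :
    TT V V (Function.update y x s) = TT V V y +
      Matrix.replicateCol Unit ((s - y x) • V x) * Matrix.replicateRow Unit (V x) := by
  ext i j
  rw [Matrix.add_apply, dqf_TT, dqf_TT, ← sub_eq_iff_eq_add', ← Finset.sum_sub_distrib,
    Finset.sum_eq_single x]
  · simp [Matrix.mul_apply]
    ring
  · intro k _ hk
    rw [Function.update_of_ne hk]
    ring
  · intro h
    exact absurd (Finset.mem_univ x) h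

theorem st_DQF (h1 : ST_PJP) (h2 : ST_PJE) : ST_DQF := by
  intro n m V hV y hy x
  have hq := (h1 n m V hV y hy).1
  have hl := (h2 n m V V y hy).1 x
  have hyx : 0 < y x := hy x
  have key : ∀ s, qf V (Function.update y x s) =
      qf V y * (1 + (s - y x) * (V x ⬝ᵥ (TT V V y)⁻¹ *ᵥ V x)) := by
    intro s
    unfold qf
    rw [dqf_upd, Matrix.det_add_replicateCol_mul_replicateRow (isUnit_iff_ne_zero.2 hq.ne')]
    congr 1
    rw [Matrix.det_unique, Matrix.add_apply, Matrix.one_apply_eq, Matrix.mul_assoc]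
    congr 1
    simp only [Matrix.mul_apply, Matrix.replicateRow_apply, Matrix.replicateCol_apply,
      dotProduct, Matrix.mulVec, Pi.smul_apply, smul_eq_mul, Finset.mul_sum]
    refine Finset.sum_congr rfl fun i _ => Finset.sum_congr rfl fun j _ => ?_
    ring
  have hd : HasDerivAt (fun s => qf V y * (1 + (s - y x) * (V x ⬝ᵥ (TT V V y)⁻¹ *ᵥ V x)))
      (qf V y * (V x ⬝ᵥ (TT V V y)⁻¹ *ᵥ V x)) (y x) := by
    have := ((((hasDerivAt_id (y x)).sub_const (y x)).mul_const
      (V x ⬝ᵥ (TT V V y)⁻¹ *ᵥ V x)).const_add 1).const_mul (qf V y)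
    simpa using this
  have h := hd.log (by
    rw [sub_self, zero_mul, add_zero, mul_one]
    exact hq.ne')
  have e : (fun s => Real.log (qf V (Function.update y x s))) = fun s =>
      Real.log (qf V y * (1 + (s - y x) * (V x ⬝ᵥ (TT V V y)⁻¹ *ᵥ V x))) := by
    funext s
    rw [key]
  rw [e]
  convert h using 1
  rw [hl, sub_self, zero_mul, add_zero, mul_one]
  field_simp

end Pool.Agent.Helper44.GN
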